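import Pool.Agent.GT.StmtsE
import Pool.Agent.Helper1_GT.FRM

/-!
# Squad GT, row E_FRZ: homogeneous linear forms
-/

set_option autoImplicit false

open Finset Polynomial

namespace Pool.Agent.GT.OF.H42

open Pool.Agent.NJ Pool.Agent.GT.D Pool.Agent.GT.D.H1

noncomputable section

theorem e_frz (hSpl : SplStmt) : FrzStmt := by
  intro k R x y z hk hx hy hz hsum hcop hdeg hbad
  classical
  obtain ⟨δ, hδdef⟩ : ∃ δ : ℚ[X], δ = C k * ∏ c ∈ R, (X - C c) := ⟨_, rfl⟩
  rw [← hδdef]
  rw [← hδdef] at hbad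
  obtain ⟨s, hs1⟩ : ∃ s : ℚ[X], s = 1 := ⟨_, rfl⟩
  have hδeq : δ = C k * s ^ 2 * ∏ c ∈ R, (X - C c) := by
    rw [hδdef, hs1, one_pow, mul_one]
  obtain ⟨pol, hpol⟩ : ∃ pol : Fin 3 → ℚ[X], pol = ![y, z, x] := ⟨_, rfl⟩
  have p0 : pol 0 = y := by rw [hpol]; rfl
  have p1 : pol 1 = z := by rw [hpol]; rfl
  have p2 : pol 2 = x := by rw [hpol]; rfl
  have hne : ∀ i, pol i ≠ 0 := by
    intro i
    fin_cases i
    · change pol 0 ≠ 0; rw [p0]; exact hy
    · change pol 1 ≠ 0; rw [p1]; exact hz
    · change pol 2 ≠ 0; rw [p2]; exact hx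
  have hsplit : ∀ i, pol i = C (pol i).leadingCoeff *
      ∏ c ∈ (pol i).roots.toFinset, (X - C c) ^ (pol i).rootMultiplicity c := by
    intro i
    apply hSpl (pol i) (hne i)
    intro t ht
    apply hbad t
    left
    rw [map_mul, map_mul]
    fin_cases i
    · change aeval t (pol 0) = 0 at ht
      rw [p0] at ht
      rw [ht]; ring
    · change aeval t (pol 1) = 0 at ht
      rw [p1] at ht
      rw [ht]; ring
    · change aeval t (pol 2) = 0 at ht
      rw [p2] at ht
      rw [ht]; ring
  -- the set of the finite places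
  obtain ⟨S, hS⟩ : ∃ S : Finset ℚ, S = R ∪ univ.biUnion fun i => (pol i).roots.toFinset := ⟨_, rfl⟩
  have hRS : R ⊆ S := by rw [hS]; exact subset_union_left
  have hpS : ∀ i, (pol i).roots.toFinset ⊆ S := fun i => by
    rw [hS]
    exact (subset_biUnion_of_mem (fun i => (pol i).roots.toFinset) (Finset.mem_univ i)).trans
      subset_union_right
  have hps := fun i => poly_split (hne i) (hsplit i) (hpS i)
  obtain ⟨n, hn⟩ : ∃ n : Fin 3 → ℚ → ℕ, n = fun i c => (pol i).rootMultiplicity c := ⟨_, rfl⟩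
  have hev : ∀ i t, (pol i).eval t = (pol i).leadingCoeff * ∏ c ∈ S, (t - c) ^ n i c := by
    intro i t
    rw [(hps i).1 t, hn]
  have hnd : ∀ i, (pol i).natDegree = ∑ c ∈ S, n i c := by
    intro i
    rw [(hps i).2, hn]
  -- common roots
  have hcom : ∀ c, ¬ (x.eval c = 0 ∧ y.eval c = 0) := by
    rintro c ⟨h1, h2⟩
    obtain ⟨a, b, hab⟩ := hcop
    have := congrArg (eval c) hab
    rw [eval_add, eval_mul, eval_mul, h1, h2, eval_one] at this
    norm_num at this
  have hsumev : ∀ c, x.eval c + y.eval c + z.eval c = 0 := by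
    intro c
    rw [← eval_add, ← eval_add, hsum, eval_zero]
  obtain ⟨b, hb⟩ : ∃ b : ℚ → Fin 3, b = fun c =>
    if x.eval c = 0 then 2 else if y.eval c = 0 then 0 else 1 := ⟨_, rfl⟩
  have hbn : ∀ c i, b c ≠ i → n i c = 0 := by
    intro c i hi
    rw [hn]
    apply rootMultiplicity_eq_zero
    intro hr
    change (pol i).eval c = 0 at hr
    apply hi
    have h1 := hsumev c
    have h2 := hcom c
    rw [hb]
    fin_cases i
    · change (pol 0).eval c = 0 at hr
      rw [p0] at hr
      change (if x.eval c = 0 then (2 : Fin 3) else if y.eval c = 0 then 0 else 1) = 0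
      rw [if_neg (fun h => h2 ⟨h, hr⟩), if_pos hr]
    · change (pol 1).eval c = 0 at hr
      rw [p1] at hr
      change (if x.eval c = 0 then (2 : Fin 3) else if y.eval c = 0 then 0 else 1) = 1
      rw [if_neg, if_neg]
      · intro h
        exact h2 ⟨by rw [h, hr] at h1; linarith, h⟩
      · intro h
        exact h2 ⟨h, by rw [h, hr] at h1; linarith⟩
    · change (pol 2).eval c = 0 at hr
      rw [p2] at hr
      change (if x.eval c = 0 then (2 : Fin 3) else if y.eval c = 0 then 0 else 1) = 2
      rw [if_pos hr]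
  -- degrees
  have hpsum : pol 0 + pol 1 + pol 2 = 0 := by
    rw [p0, p1, p2, ← hsum]
    ring
  obtain ⟨N, i₀, hN1, hi₀, hiN⟩ := deg_choice (fun i => (pol i).natDegree)
    (by
      have h1 : pol 0 = -(pol 1 + pol 2) := by linear_combination hpsum
      have h2 : (pol 0).natDegree = (pol 1 + pol 2).natDegree := by rw [h1, natDegree_neg]
      exact h2 ▸ natDegree_add_le _ _)
    (by
      have h1 : pol 1 = -(pol 0 + pol 2) := by linear_combination hpsum
      have h2 : (pol 1).natDegree = (pol 0 + pol 2).natDegree := by rw [h1, natDegree_neg]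
      exact h2 ▸ natDegree_add_le _ _)
    (by
      have h1 : pol 2 = -(pol 0 + pol 1) := by linear_combination hpsum
      have h2 : (pol 2).natDegree = (pol 0 + pol 1).natDegree := by rw [h1, natDegree_neg]
      exact h2 ▸ natDegree_add_le _ _)
    (by
      rintro ⟨h1, h2⟩
      apply hdeg
      rw [← p2, ← p0]
      exact ⟨h1, h2⟩)
  -- the coefficients
  obtain ⟨cc, hcc⟩ : ∃ cc : Fin 3 → ℚ, cc = fun i =>
    (pol i).leadingCoeff / ∏ c ∈ S, (c.den : ℚ) ^ n i c := ⟨_, rfl⟩
  have hden : ∀ i, (∏ c ∈ S, (c.den : ℚ) ^ n i c) ≠ 0 := fun i => by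
    rw [prod_ne_zero_iff]
    intro c _
    exact pow_ne_zero _ (den_ne c)
  have hcc0 : ∀ i, cc i ≠ 0 := fun i => by
    rw [hcc]
    exact div_ne_zero (leadingCoeff_ne_zero.2 (hne i)) (hden i)
  obtain ⟨d, ka, hd0, hka0, hka⟩ := common_den cc hcc0
  have hd0' : (d : ℚ) ≠ 0 := by exact_mod_cast hd0
  -- the data
  obtain ⟨al, hal⟩ : ∃ al : Option ↥S → ℤ, al = fun l => l.elim 0 (fun c => ((c : ℚ).den : ℤ)) :=
    ⟨_, rfl⟩
  obtain ⟨be, hbe⟩ : ∃ be : Option ↥S → ℤ, be = fun l => l.elim 1 (fun c => -(c : ℚ).num) :=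
    ⟨_, rfl⟩
  obtain ⟨bl, hbl⟩ : ∃ bl : Option ↥S → Fin 3, bl = fun l => l.elim i₀ (fun c => b (c : ℚ)) :=
    ⟨_, rfl⟩
  obtain ⟨m, hm⟩ : ∃ m : Option ↥S → ℕ, m = fun l => l.elim (N - (pol i₀).natDegree)
    (fun c => n (b (c : ℚ)) (c : ℚ)) := ⟨_, rfl⟩
  obtain ⟨st, hst⟩ : ∃ st : Option ↥S → ℕ, st = fun l => l.elim ((N + R.card) % 2)
    (fun c => if (c : ℚ) ∈ R then 1 else 0) := ⟨_, rfl⟩
  -- the product of the forms of the block `i`
  have hprod : ∀ (i : Fin 3) (u v : ℤ), v ≠ 0 →
      (cc i) * (((∏ l, (if bl l = i then (al l * u + be l * v) ^ m l else 1) : ℤ)) : ℚ) =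
        (v : ℚ) ^ N * (pol i).eval ((u : ℚ) / v) := by
    intro i u v hv
    rw [Fintype.prod_option]
    have h1 : (if bl none = i then (al none * u + be none * v) ^ m none else 1) =
        v ^ (N - (pol i).natDegree) := by
      rw [hbl, hal, hbe, hm]
      simp only [Option.elim_none]
      by_cases hi : i₀ = i
      · rw [if_pos hi, ← hi]
        congr 1
        ring
      · rw [if_neg hi, hiN i (fun h => hi h.symm), Nat.sub_self, pow_zero]
    have h2 : (((∏ c : ↥S, (if bl (some c) = i then
        (al (some c) * u + be (some c) * v) ^ m (some c) else 1) : ℤ)) : ℚ) =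
        ∏ c ∈ S, ((c.den : ℚ) * u - c.num * v) ^ n i c := by
      rw [← prod_coe_sort S (fun c : ℚ => ((c.den : ℚ) * u - c.num * v) ^ n i c)]
      push_cast
      refine prod_congr rfl fun c _ => ?_
      rw [hbl, hal, hbe, hm]
      simp only [Option.elim_some]
      by_cases hi : b (c : ℚ) = i
      · rw [if_pos hi, hi]
        push_cast
        congr 1
        ring
      · rw [if_neg hi, hbn _ _ hi, pow_zero]
    rw [h1]
    push_cast
    push_cast at h2
    rw [h2, prod_form S (n i) u v hv, ← hnd i, hev i, hcc]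
    have h3 : (pol i).natDegree ≤ N := by
      by_cases hi : i = i₀
      · rw [hi]; exact hi₀
      · exact (hiN i hi).le
    have h4 : (v : ℚ) ^ N = (v : ℚ) ^ (N - (pol i).natDegree) * (v : ℚ) ^ (pol i).natDegree := by
      rw [← pow_add, Nat.sub_add_cancel h3]
    rw [h4]
    have := hden i
    field_simp
  have hA : ∀ (i : Fin 3) (u v : ℤ), v ≠ 0 →
      ((ka i * ∏ l, (if bl l = i then (al l * u + be l * v) ^ m l else 1) : ℤ) : ℚ) =
        d * (v : ℚ) ^ N * (pol i).eval ((u : ℚ) / v) := by
    intro i u v hv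
    have := hprod i u v hv
    rw [Int.cast_mul, hka i, mul_assoc, this, mul_assoc]
  have hsum0 : ∀ u v : ℤ,
      ∑ i, ka i * ∏ l, (if bl l = i then (al l * u + be l * v) ^ m l else 1) = 0 := by
    intro u v
    refine form_zero al be bl m ka (fun u v hv => ?_) u v
    have h1 : ((∑ i, ka i * ∏ l, (if bl l = i then (al l * u + be l * v) ^ m l else 1) : ℤ) : ℚ) =
        0 := by
      rw [Int.cast_sum]
      have h2 : ∀ i : Fin 3, ((ka i * ∏ l, (if bl l = i then (al l * u + be l * v) ^ m l else 1) :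
        ℤ) : ℚ) = d * (v : ℚ) ^ N * (pol i).eval ((u : ℚ) / v) := fun i => hA i u v hv
      rw [sum_congr rfl fun i _ => h2 i, Fin.sum_univ_three, ← mul_add, ← mul_add, ← eval_add,
        ← eval_add, hpsum, eval_zero, mul_zero]
    exact_mod_cast h1
  -- the common factor
  obtain ⟨q, hq⟩ : ∃ q : ℚ, q = k / ((∏ c ∈ R, (c.den : ℚ)) * d) := ⟨_, rfl⟩
  have hdenR : (∏ c ∈ R, (c.den : ℚ)) ≠ 0 := by
    rw [prod_ne_zero_iff]
    intro c _
    exact den_ne c
  have hq0 : q ≠ 0 := by
    rw [hq]
    exact div_ne_zero hk (mul_ne_zero hdenR hd0')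
  have hg0 : q.num * (q.den : ℤ) ≠ 0 :=
    mul_ne_zero (Rat.num_ne_zero.2 hq0) (by exact_mod_cast q.den_ne_zero)
  have hg : ((q.num * (q.den : ℤ) : ℤ) : ℚ) = q * (q.den : ℚ) ^ 2 := by
    have := Rat.mul_den_eq_num q
    push_cast
    rw [← this]
    ring
  have hFprod : ∀ u v : ℤ, v ≠ 0 → (((∏ l, (al l * u + be l * v) ^ st l : ℤ)) : ℚ) =
      (v : ℚ) ^ ((N + R.card) % 2 + R.card) * (∏ c ∈ R, (c.den : ℚ)) *
        ∏ c ∈ R, ((u : ℚ) / v - c) := by
    intro u v hv
    rw [Fintype.prod_option]
    have h1 : (al none * u + be none * v) ^ st none = v ^ ((N + R.card) % 2) := by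
      rw [hal, hbe, hst]
      simp only [Option.elim_none]
      congr 1
      ring
    have h2 : (((∏ c : ↥S, (al (some c) * u + be (some c) * v) ^ st (some c) : ℤ)) : ℚ) =
        ∏ c ∈ R, ((c.den : ℚ) * u - c.num * v) := by
      have h3 : ∏ c ∈ R, ((c.den : ℚ) * u - c.num * v) =
          ∏ c ∈ S, ((c.den : ℚ) * u - c.num * v) ^ (if c ∈ R then 1 else 0) := by
        rw [← prod_subset hRS (fun c _ hc => by rw [if_neg hc, pow_zero])]
        exact prod_congr rfl fun c hc => by rw [if_pos hc, pow_one]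
      rw [h3, ← prod_coe_sort S (fun c : ℚ => ((c.den : ℚ) * u - c.num * v) ^
        (if c ∈ R then 1 else 0))]
      push_cast
      refine prod_congr rfl fun c _ => ?_
      rw [hal, hbe, hst]
      simp only [Option.elim_some]
      push_cast
      congr 1
      ring
    rw [h1]
    push_cast
    push_cast at h2
    rw [h2]
    have h4 := prod_form R (fun _ => 1) u v hv
    simp only [pow_one, sum_const, smul_eq_mul, mul_one] at h4
    rw [h4, pow_add]
    ring
  -- the parity
  obtain ⟨n₂, hn₂⟩ : ∃ n₂, N + R.card + (N + R.card) % 2 = 2 * n₂ := by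
    refine ⟨(N + R.card + (N + R.card) % 2) / 2, ?_⟩
    omega
  have hstsum : ∑ l, st l = (N + R.card) % 2 + R.card := by
    rw [Fintype.sum_option, hst]
    simp only [Option.elim_none, Option.elim_some]
    congr 1
    rw [sum_coe_sort S (fun c : ℚ => if c ∈ R then 1 else 0), ← sum_filter, sum_const, smul_eq_mul,
      mul_one]
    congr 1
    ext c
    simp only [Finset.mem_filter]
    exact ⟨fun h => h.2, fun h => ⟨hRS h, h⟩⟩
  refine ⟨Option ↥S, inferInstance, inferInstance,
    { al := al, be := be, bl := bl, m := m, st := st, ka := ka, g := q.num * (q.den : ℤ), N := N,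
      st1 := ?_, np := ?_, k0 := hka0, g0 := hg0, N1 := hN1, deg := ?_, par := ?_, sum := hsum0 },
    ?_⟩
  · intro l
    rw [hst]
    rcases l with _ | c
    · simp only [Option.elim_none]
      omega
    · simp only [Option.elim_some]
      split_ifs <;> omega
  · intro l l' hl
    rw [hal, hbe]
    rcases l with _ | c
    · rcases l' with _ | c'
      · exact absurd rfl hl
      · simp only [Option.elim_none, Option.elim_some]
        have : ((c' : ℚ).den : ℤ) ≠ 0 := by exact_mod_cast (c' : ℚ).den_ne_zero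
        intro h
        apply this
        linarith
    · rcases l' with _ | c'
      · simp only [Option.elim_none, Option.elim_some]
        have : ((c : ℚ).den : ℤ) ≠ 0 := by exact_mod_cast (c : ℚ).den_ne_zero
        intro h
        apply this
        linarith
      · simp only [Option.elim_some]
        intro h
        apply hl
        congr 1
        apply Subtype.ext
        apply Rat.eq_iff_mul_eq_mul.2
        linarith
  · intro i
    rw [Fintype.sum_option]
    have h1 : (if bl none = i then m none else 0) = N - (pol i).natDegree := by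
      rw [hbl, hm]
      simp only [Option.elim_none]
      by_cases hi : i₀ = i
      · rw [if_pos hi, ← hi]
      · rw [if_neg hi, hiN i (fun h => hi h.symm), Nat.sub_self]
    have h2 : ∑ c : ↥S, (if bl (some c) = i then m (some c) else 0) = (pol i).natDegree := by
      rw [hnd i, ← sum_coe_sort S (fun c : ℚ => n i c)]
      refine sum_congr rfl fun c _ => ?_
      rw [hbl, hm]
      simp only [Option.elim_some]
      by_cases hi : b (c : ℚ) = i
      · rw [if_pos hi, hi]
      · rw [if_neg hi, hbn _ _ hi]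
    have h3 : (pol i).natDegree ≤ N := by
      by_cases hi : i = i₀
      · rw [hi]; exact hi₀
      · exact (hiN i hi).le
    rw [h1, h2, Nat.sub_add_cancel h3]
  · rw [hstsum, Nat.even_iff]
    omega
  · intro u v hv hsv
    have hv' : (v : ℚ) ≠ 0 := by exact_mod_cast hv
    have hev0 : ∀ c ∈ S, (δ * x * y * z).eval c = 0 := by
      intro c hc
      rw [hS, mem_union, mem_biUnion] at hc
      rw [eval_mul, eval_mul, eval_mul]
      rcases hc with hc | ⟨i, _, hc⟩
      · have h1 : δ.eval c = 0 := by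
          rw [hδdef, eval_mul, eval_prod, prod_eq_zero hc (by rw [eval_sub, eval_X, eval_C, sub_self]),
            mul_zero]
        rw [h1]; ring
      · have h1 : (pol i).eval c = 0 := (mem_roots (hne i)).1 (Multiset.mem_toFinset.1 hc)
        fin_cases i
        · change (pol 0).eval c = 0 at h1
          rw [p0] at h1
          rw [h1]; ring
        · change (pol 1).eval c = 0 at h1
          rw [p1] at h1
          rw [h1]; ring
        · change (pol 2).eval c = 0 at h1
          rw [p2] at h1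
          rw [h1]; ring
    refine ⟨?_, ?_⟩
    · intro l
      change al l * u + be l * v ≠ 0
      rcases l with _ | c
      · rw [hal, hbe]
        simp only [Option.elim_none]
        rw [zero_mul, one_mul, zero_add]
        exact hv
      · rw [hal, hbe]
        simp only [Option.elim_some]
        intro h0
        apply hsv
        have h1 : ((c : ℚ).den : ℚ) * u - (c : ℚ).num * v = 0 := by
          have h2 : ((((c : ℚ).den : ℤ) * u + -(c : ℚ).num * v : ℤ) : ℚ) = 0 := by
            rw [h0, Int.cast_zero]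
          push_cast at h2
          linear_combination h2
        rw [form_eq _ u v hv] at h1
        rcases mul_eq_zero.1 h1 with h2 | h2
        · exact absurd h2 (mul_ne_zero (den_ne _) hv')
        · have h3 : (u : ℚ) / v = (c : ℚ) := by linarith
          rw [h3]
          exact hev0 _ c.2
    have hqd : (q.den : ℚ) ≠ 0 := den_ne q
    have hgen : ∀ i, (δ * pol i).eval ((u : ℚ) / v) =
        (s.eval ((u : ℚ) / v) / (q.den * (v : ℚ) ^ n₂)) ^ 2 *
          (((q.num * (q.den : ℤ) * ∏ l, (al l * u + be l * v) ^ st l) *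
            (ka i * ∏ l, (if bl l = i then (al l * u + be l * v) ^ m l else 1)) : ℤ) : ℚ) := by
      intro i
      rw [Int.cast_mul, Int.cast_mul, hg, hFprod u v hv, hA i u v hv, eval_mul, hδeq, eval_mul,
        eval_mul, eval_C, eval_pow, eval_prod]
      have h1 : ∏ c ∈ R, (X - C c).eval ((u : ℚ) / v) = ∏ c ∈ R, ((u : ℚ) / v - c) :=
        prod_congr rfl fun c _ => by rw [eval_sub, eval_X, eval_C]
      rw [h1, hq]
      obtain ⟨Q, hQ⟩ : ∃ Q : ℚ, Q = (k / ((∏ c ∈ R, (c.den : ℚ)) * d)).den := ⟨_, rfl⟩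
      rw [← hQ]
      have hQ0 : Q ≠ 0 := by
        rw [hQ, ← hq]
        exact hqd
      have h2 : (v : ℚ) ^ ((N + R.card) % 2 + R.card) * (v : ℚ) ^ N = ((v : ℚ) ^ n₂) ^ 2 := by
        rw [← pow_add, ← pow_mul]
        congr 1
        omega
      have h3 : ((v : ℚ) ^ n₂) ≠ 0 := pow_ne_zero _ hv'
      rw [div_pow, mul_pow, ← h2]
      have h4 : (v : ℚ) ^ ((N + R.card) % 2 + R.card) ≠ 0 := pow_ne_zero _ hv'
      have h5 : (v : ℚ) ^ N ≠ 0 := pow_ne_zero _ hv'
      field_simp
    refine ⟨s.eval ((u : ℚ) / v) / (q.den * (v : ℚ) ^ n₂),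
      div_ne_zero (by rw [hs1, eval_one]; exact one_ne_zero) (mul_ne_zero hqd (pow_ne_zero _ hv')), ?_, ?_, ?_⟩
    · have := hgen 2
      rw [p2] at this
      exact this
    · have := hgen 0
      rw [p0] at this
      exact this
    · have := hgen 1
      rw [p1] at this
      exact this

end

end Pool.Agent.GT.OF.H42
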