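import Pool.Agent.GT.StmtsE

/-!
# Squad GT, row E_SLT: Selmer groups for rational and for integral roots
-/

set_option autoImplicit false

namespace Pool.Agent.GT.OF.H42

open Polynomial Pool.Agent.NJ Pool.Agent.GT.D

theorem const_of_cyc {F : Type} [Field F] {A : Fin 3 → F} (h : ∀ i : Fin 3, A (i + 1) = A (i + 2))
    (i : Fin 3) : A i = A 0 := by
  have h0 : A 1 = A 2 := h 0
  have h1 : A 2 = A 0 := h 1
  fin_cases i
  · rfl
  · exact h0.trans h1
  · exact h1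

theorem roots_eq {e : Fin 3 → ℚ} {μ : ℚ} {P : Fin 3 → ℤ} (hs : P 0 + P 1 + P 2 = 0)
    (he : ∀ i : Fin 3, e (i + 1) - e (i + 2) = μ ^ 2 * (P i : ℚ)) (i j : Fin 3) :
    e j - e i = μ ^ 2 * ((rt 1 P j : ℚ) - (rt 1 P i : ℚ)) := by
  have hc : ∀ i : Fin 3, e i - μ ^ 2 * (rt 1 P i : ℚ) = e 0 - μ ^ 2 * (rt 1 P 0 : ℚ) :=
    const_of_cyc (A := fun i => e i - μ ^ 2 * (rt 1 P i : ℚ)) (fun i => by
      have h1 := he i
      have h2 := (rt_sub (K := 1) hs i).2.2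
      have h3 : (rt 1 P (i + 1) : ℚ) - (rt 1 P (i + 2) : ℚ) = (P i : ℚ) := by
        rw [one_mul] at h2
        exact_mod_cast h2
      change e (i + 1) - μ ^ 2 * (rt 1 P (i + 1) : ℚ) = e (i + 2) - μ ^ 2 * (rt 1 P (i + 2) : ℚ)
      linear_combination h1 - μ ^ 2 * h3)
  have h1 := hc i
  have h2 := hc j
  linear_combination h2 - h1

theorem cv_of_cov {F : Type} [Field F] [Algebra ℚ F] [CharZero F] {e : Fin 3 → ℚ} {μ : ℚ}
    {P d : Fin 3 → ℤ} (hμ : μ ≠ 0) (hs : P 0 + P 1 + P 2 = 0)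
    (he : ∀ i : Fin 3, e (i + 1) - e (i + 2) = μ ^ 2 * (P i : ℚ)) (h : Cov F P d) :
    Cv F e (fun i => (d i : ℚ)) := by
  obtain ⟨z, w, hzw, h⟩ := h
  have hμ' : algebraMap ℚ F μ ≠ 0 := (map_ne_zero_iff _ (algebraMap ℚ F).injective).2 hμ
  refine ⟨z, w / algebraMap ℚ F μ, ?_, ?_⟩
  · rintro ⟨h1, h2⟩
    exact hzw ⟨h1, (div_eq_zero_iff.1 h2).resolve_right hμ'⟩
  · have hc : ∀ i : Fin 3, (d i : F) * z i ^ 2 + (rt 1 P i : F) * w ^ 2 =
        (d 0 : F) * z 0 ^ 2 + (rt 1 P 0 : F) * w ^ 2 :=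
      const_of_cyc (A := fun i => (d i : F) * z i ^ 2 + (rt 1 P i : F) * w ^ 2) (fun i => by
        have h1 := h i
        have h2 := (rt_sub (K := 1) hs i).2.2
        have h3 : (rt 1 P (i + 1) : F) - (rt 1 P (i + 2) : F) = (P i : F) := by
          rw [one_mul] at h2
          exact_mod_cast h2
        change (d (i + 1) : F) * z (i + 1) ^ 2 + (rt 1 P (i + 1) : F) * w ^ 2 =
          (d (i + 2) : F) * z (i + 2) ^ 2 + (rt 1 P (i + 2) : F) * w ^ 2
        linear_combination h1 + w ^ 2 * h3)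
    intro i j
    have h1 := hc i
    have h2 := hc j
    rw [map_intCast, map_intCast, roots_eq hs he i j, map_mul, map_pow, map_sub, map_intCast,
      map_intCast]
    have h3 : (algebraMap ℚ F μ) ^ 2 * ((rt 1 P j : F) - (rt 1 P i : F)) *
        (w / algebraMap ℚ F μ) ^ 2 = ((rt 1 P j : F) - (rt 1 P i : F)) * w ^ 2 := by
      field_simp
    rw [h3]
    linear_combination h1 - h2

theorem e_slt : SltStmt := by
  intro e μ P hμ hs he hT d hd hsq hp hr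
  have h := hT (fun i => (d i : ℚ)) (fun i => by exact_mod_cast hd i) (by
      have h1 : ((d 0 * d 1 * d 2 : ℤ) : ℚ) = (d 0 : ℚ) * (d 1 : ℚ) * (d 2 : ℚ) := by push_cast; ring
      have h2 : IsSquare ((d 0 * d 1 * d 2 : ℤ) : ℚ) := Rat.isSquare_intCast_iff.2 hsq
      rw [h1] at h2
      exact h2)
    (fun p _ => cv_of_cov hμ hs he (hp p)) (cv_of_cov hμ hs he hr)
  rcases h with h | ⟨j, h⟩
  · exact Or.inl fun i => Rat.isSquare_intCast_iff.1 (h i)
  · refine Or.inr ⟨j, fun k hk => ?_⟩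
    obtain ⟨x, hx⟩ := h k hk
    rw [← Rat.isSquare_intCast_iff]
    refine ⟨x / μ, ?_⟩
    push_cast
    have h1 := roots_eq hs he k j
    rw [h1] at hx
    have h2 : x / μ * (x / μ) = (x * x) / μ ^ 2 := by
      field_simp
    rw [h2, ← hx]
    field_simp

end Pool.Agent.GT.OF.H42
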