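import Pool.Agent.GT.StmtsE
import Pool.Agent.Helper41_GT.DGT

/-!
# Squad GT, row E_TWF: fibres of the twist
-/

set_option autoImplicit false

namespace Pool.Agent.GT.OF.H42

open Polynomial Pool.Agent.NJ Pool.Agent.GT.D

theorem e_twf : TwfStmt := by
  intro E k hk
  have hCk : (C (k : ℚ) : ℚ[X]) ≠ 0 := by
    rw [Ne, C_eq_zero]
    exact_mod_cast hk
  have h4096 : (4096 : ℚ[X]) = C 4096 := (map_ofNat C 4096).symm
  refine ⟨fun hΔ => ?_, fun t => ⟨?_, fun a b c hR => ?_⟩⟩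
  · rw [GT.D.H41.twist_Δ]
    have h3 : (4096 : ℚ[X]) ≠ 0 := by
      rw [h4096, Ne, C_eq_zero]
      norm_num
    exact mul_ne_zero h3 (mul_ne_zero (pow_ne_zero _ hCk) hΔ)
  · unfold fib
    rw [WeierstrassCurve.map_Δ, WeierstrassCurve.map_Δ, GT.D.H41.twist_Δ, map_mul, map_mul, map_pow,
      coe_evalRingHom, eval_C, h4096, eval_C]
    ring
  · obtain ⟨h1, h2, h3⟩ := hR
    unfold fib at h1 h2 h3
    rw [WeierstrassCurve.map_b₂] at h1
    rw [WeierstrassCurve.map_b₄] at h2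
    rw [WeierstrassCurve.map_b₆] at h3
    have hev : evalRingHom t (C (k : ℚ)) = (k : ℚ) := by
      rw [coe_evalRingHom, eval_C]
    refine ⟨?_, ?_, ?_⟩
    · unfold fib
      rw [WeierstrassCurve.map_b₂, GT.D.H41.twist_b₂, map_mul, map_mul, hev, h1, map_ofNat]
      ring
    · unfold fib
      rw [WeierstrassCurve.map_b₄, GT.D.H41.twist_b₄, map_mul, map_mul, map_pow, hev, h2, map_ofNat]
      ring
    · unfold fib
      rw [WeierstrassCurve.map_b₆, GT.D.H41.twist_b₆, map_mul, map_mul, map_pow, hev, h3, map_ofNat]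
      ring

end Pool.Agent.GT.OF.H42
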